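import Pool.Agent.Lib.MP_6ec4b3_lc.H78.Exp

/-!
# Modules UP and PAR: the upper bound for the expectation, the choice of the dimension
-/

namespace Pool.Agent.Polya.H78

open Pool.Agent.Polya Finset

theorem nu_pos (k : ℕ) : 0 < nu k := by
  have h1 := fa_nonneg k
  have h2 := fb_nonneg k
  have h3 : 0 ≤ fc k := by unfold fc; positivity
  unfold nu; positivity

/-- A set has at most `α` elements more than conflicts. -/
theorem card_le_add {n α : ℕ} (E : Fin n → Fin n → Bool)
    (h : ∀ I : Finset (Fin n), (∀ u ∈ I, ∀ v ∈ I, E u v = false) → I.card ≤ α)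
    (I : Finset (Fin n)) :
    I.card ≤ α + ((I ×ˢ I).filter fun q => E q.1 q.2 = true).card := by
  classical
  set P := (I ×ˢ I).filter fun q => E q.1 q.2 = true with hP
  have h1 : (I \ P.image Prod.fst).card ≤ α := by
    refine h _ fun u hu v hv => ?_
    by_contra hE
    rw [Bool.not_eq_false] at hE
    rw [mem_sdiff] at hu hv
    exact hu.2 (mem_image.2 ⟨(u, v), mem_filter.2 ⟨mem_product.2 ⟨hu.1, hv.1⟩, hE⟩, rfl⟩)
  have h2 : I.card ≤ (I \ P.image Prod.fst).card + (P.image Prod.fst).card := by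
    calc I.card ≤ ((I \ P.image Prod.fst) ∪ P.image Prod.fst).card := by
          refine card_le_card fun x hx => ?_
          by_cases hx2 : x ∈ P.image Prod.fst
          · exact mem_union_right _ hx2
          · exact mem_union_left _ (mem_sdiff.2 ⟨hx, hx2⟩)
      _ ≤ _ := card_union_le _ _
  have h3 : (P.image Prod.fst).card ≤ P.card := card_image_le
  omega

theorem term_le (k n l t α : ℕ) (E : Fin n → Fin n → Bool)
    (h : ∀ I : Finset (Fin n), (∀ u ∈ I, ∀ v ∈ I, E u v = false) → I.card ≤ α)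
    (hlam : 1 ≤ lam k n l t) (hnm : lam k n l t * nu k ^ t ≤ mu k ^ t) (I : Finset (Fin n)) :
    ((1 + fa k) ^ l - 1) ^ I.card *
        (mu k ^ (t * (n * I.card - ((I ×ˢ I).filter fun q => E q.1 q.2 = true).card)) *
          nu k ^ (t * ((I ×ˢ I).filter fun q => E q.1 q.2 = true).card)) ≤
      lam k n l t ^ α := by
  have hmu := mu_pos k
  have hnu := nu_pos k
  have hfa := fa_nonneg k
  set e := ((I ×ˢ I).filter fun q => E q.1 q.2 = true).card with he
  have hIe : I.card ≤ α + e := card_le_add E h I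
  have hle : e ≤ n * I.card := by
    calc e ≤ (I ×ˢ I).card := card_filter_le _ _
      _ = I.card * I.card := card_product _ _
      _ ≤ n * I.card := by
        refine Nat.mul_le_mul_right _ ?_
        calc I.card ≤ (univ : Finset (Fin n)).card := card_le_univ _
          _ = n := by simp
  have h1 : (1 : ℝ) ≤ (1 + fa k) ^ l := one_le_pow₀ (by linarith)
  have h2 : ((1 + fa k) ^ l - 1) ^ I.card ≤ ((1 + fa k) ^ l) ^ I.card :=
    pow_le_pow_left₀ (by linarith) (by linarith) _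
  have hte : 0 < mu k ^ (t * e) := by positivity
  rw [← mul_le_mul_iff_left₀ hte]
  calc ((1 + fa k) ^ l - 1) ^ I.card * (mu k ^ (t * (n * I.card - e)) * nu k ^ (t * e)) *
        mu k ^ (t * e)
      ≤ ((1 + fa k) ^ l) ^ I.card * (mu k ^ (t * (n * I.card - e)) * nu k ^ (t * e)) *
        mu k ^ (t * e) := by gcongr
    _ = lam k n l t ^ I.card * (nu k ^ t) ^ e := by
        have h3 : mu k ^ (t * (n * I.card - e)) * mu k ^ (t * e) = mu k ^ (t * n * I.card) := by
          rw [← pow_add, ← Nat.mul_add, Nat.sub_add_cancel hle, mul_assoc]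
        have h4 : lam k n l t ^ I.card = ((1 + fa k) ^ l) ^ I.card * mu k ^ (t * n * I.card) := by
          unfold lam; rw [mul_pow, ← pow_mul (mu k)]
        rw [h4, ← h3, ← pow_mul (nu k)]
        ring
    _ ≤ lam k n l t ^ (α + e) * (nu k ^ t) ^ e := by
        gcongr
    _ = lam k n l t ^ α * (lam k n l t * nu k ^ t) ^ e := by rw [pow_add, mul_pow]; ring
    _ ≤ lam k n l t ^ α * (mu k ^ t) ^ e := by gcongr
    _ = lam k n l t ^ α * mu k ^ (t * e) := by rw [← pow_mul]

/-- Module UP. -/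
theorem up : UP := by
  intro k n l t α hk E hα hlam hnm
  rw [exp k n l t hk E]
  have h1 : ∑ I : Finset (Fin n), ((1 + fa k) ^ l - 1) ^ I.card *
        (mu k ^ (t * (n * I.card - ((I ×ˢ I).filter fun q => E q.1 q.2 = true).card)) *
          nu k ^ (t * ((I ×ˢ I).filter fun q => E q.1 q.2 = true).card)) ≤
      2 ^ n * lam k n l t ^ α := by
    calc _ ≤ ∑ _I : Finset (Fin n), lam k n l t ^ α :=
          sum_le_sum fun I _ => term_le k n l t α E hα hlam hnm I
      _ = 2 ^ n * lam k n l t ^ α := by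
        rw [sum_const, card_univ, Fintype.card_finset, Fintype.card_fin, nsmul_eq_mul]
        push_cast
        rfl
  calc _ ≤ (Fintype.card (Om n l t) : ℝ) * (F k 0 0 : ℝ) ^ nblocks n l t *
        (2 ^ n * lam k n l t ^ α) := by gcongr
    _ = _ := by ring

theorem fa_le_one (k : ℕ) : fa k ≤ 1 := by
  unfold fa
  rw [div_le_one (by positivity)]
  nlinarith [sq_nonneg ((k : ℝ) - 1)]

theorem fb_le_one (k : ℕ) (hk : 1 ≤ k) : fb k ≤ 1 := by
  have : (1 : ℝ) ≤ k := by exact_mod_cast hk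
  unfold fb
  rw [div_le_one (by positivity)]
  nlinarith

theorem two_le_pow (k : ℕ) (hk : 1 ≤ k) : 2 ≤ (1 + fa k) ^ k := by
  have h1 : (1 : ℝ) ≤ k := by exact_mod_cast hk
  have h2 := one_add_mul_le_pow (a := fa k) (by linarith [fa_nonneg k]) k
  have h3 : 1 ≤ (k : ℝ) * fa k := by
    unfold fa
    rw [mul_div_assoc', le_div_iff₀ (by positivity)]
    nlinarith
  linarith

theorem mu_le_one (k : ℕ) (hk : 1 ≤ k) : mu k ≤ 1 := by
  have h1 := fa_le_one k
  have h2 := fb_le_one k hk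
  have h3 := fa_nonneg k
  have h4 := fb_nonneg k
  unfold mu
  nlinarith [mul_nonneg h3 h4]

theorem mu_ge (k : ℕ) : 1 / 4 ≤ mu k := by
  have h3 := fa_nonneg k
  have h4 := fb_nonneg k
  unfold mu
  nlinarith [mul_nonneg h3 h4]

theorem two_nu_le (k : ℕ) (hk : 2 ≤ k) :
    2 * nu k ^ (k * (k + 1) * (k ^ 2 + 3)) ≤ mu k ^ (k * (k + 1) * (k ^ 2 + 3)) := by
  set C := k * (k + 1) * (k ^ 2 + 3) with hC
  have hk2 : (2 : ℝ) ≤ k := by exact_mod_cast hk
  set D : ℝ := ((k : ℝ) ^ 2 + 1) * (k ^ 2 + k + 2) with hD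
  have hDpos : 0 < D := by positivity
  have hCr : (C : ℝ) = D + 2 * (k - 1) := by
    rw [hC, hD]; push_cast; ring
  have hx : mu k = nu k * (1 + 2 * ((k : ℝ) - 1) / D) := by
    have hk0 : (k : ℝ) ≠ 0 := by positivity
    have hk1 : ((k : ℝ) ^ 2 + 1) ≠ 0 := by positivity
    have hk3 : ((k : ℝ) ^ 2 + k + 2) ≠ 0 := by positivity
    rw [hD]
    unfold mu nu fa fb fc
    field_simp
    ring
  have hx0 : 0 ≤ 2 * ((k : ℝ) - 1) / D := div_nonneg (by linarith) hDpos.le
  have h1 := one_add_mul_le_pow (a := 2 * ((k : ℝ) - 1) / D) (by linarith) C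
  have h2 : 1 ≤ (C : ℝ) * (2 * ((k : ℝ) - 1) / D) := by
    rw [mul_div_assoc', le_div_iff₀ hDpos, hCr]
    nlinarith
  have hnu := nu_pos k
  rw [hx, mul_pow, mul_comm]
  refine mul_le_mul_of_nonneg_left ?_ (by positivity)
  linarith

/-- Module PAR. -/
theorem par : PAR := by
  intro k n w hk hw
  have hk1 : 1 ≤ k := by omega
  have hfa := fa_nonneg k
  have hfa1 := fa_le_one k
  have hmu := mu_pos k
  have hmu1 := mu_le_one k hk1
  have hmu4 := mu_ge k
  have hnu := nu_pos k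
  set t := tf k w with ht
  have hex : 2 ^ w ≤ lam k n (lf k n w) t := by
    unfold lam lf
    rw [pow_mul, ← ht]
    have h1 : (2 : ℝ) ^ (w + 2 * (t * n)) ≤ ((1 + fa k) ^ k) ^ (w + 2 * (t * n)) :=
      pow_le_pow_left₀ (by norm_num) (two_le_pow k hk1) _
    have h2 : (1 / 4 : ℝ) ^ (t * n) ≤ mu k ^ (t * n) := pow_le_pow_left₀ (by norm_num) hmu4 _
    calc (2 : ℝ) ^ w = 2 ^ (w + 2 * (t * n)) * (1 / 4 : ℝ) ^ (t * n) := by
          rw [pow_add, pow_mul (2 : ℝ) 2, mul_assoc, ← mul_pow]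
          norm_num
      _ ≤ _ := by gcongr
  have hex' : ∃ l, 2 ^ w ≤ lam k n l t := ⟨_, hex⟩
  classical
  refine ⟨Nat.find hex', Nat.find_min' hex' hex, Nat.find_spec hex', ?_⟩
  have hub : lam k n (Nat.find hex') t ≤ 2 ^ (w + 1) := by
    have h0 : Nat.find hex' ≠ 0 := by
      intro h0
      have h1 := Nat.find_spec hex'
      rw [h0] at h1
      unfold lam at h1
      have h2 : mu k ^ (t * n) ≤ 1 := pow_le_one₀ hmu.le hmu1
      have h3 : (2 : ℝ) ≤ 2 ^ w := by
        calc (2 : ℝ) = 2 ^ 1 := (pow_one _).symm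
          _ ≤ 2 ^ w := pow_le_pow_right₀ (by norm_num) hw
      rw [pow_zero, one_mul] at h1
      linarith
    obtain ⟨j, hj⟩ := Nat.exists_eq_succ_of_ne_zero h0
    have h1 : ¬ 2 ^ w ≤ lam k n j t := Nat.find_min hex' (by omega)
    push Not at h1
    rw [hj]
    have h2 : lam k n (j + 1) t = (1 + fa k) * lam k n j t := by
      unfold lam; rw [pow_succ]; ring
    have h3 : 0 ≤ lam k n j t := by unfold lam; positivity
    rw [Nat.succ_eq_add_one, h2, pow_succ]
    nlinarith
  refine ⟨hub, ?_⟩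
  have h4 : 2 ^ (w + 1) * nu k ^ t ≤ mu k ^ t := by
    rw [ht, tf, pow_mul (nu k), pow_mul (mu k), ← mul_pow]
    exact pow_le_pow_left₀ (by positivity) (two_nu_le k hk) _
  calc lam k n (Nat.find hex') t * nu k ^ t ≤ 2 ^ (w + 1) * nu k ^ t := by gcongr
    _ ≤ mu k ^ t := h4

end Pool.Agent.Polya.H78
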