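import Pool.Agent.Lib.MP_6ec4b3_lc.Interfaces

/-!
# Module EXP: the exact expectation of `ZZ`
-/

namespace Pool.Agent.Polya.H78

open Pool.Agent.Polya Finset

theorem zmod2_add_one (g : ZMod 2 → ℝ) (z : ZMod 2) : g z + g (z + 1) = g 0 + g 1 := by
  have h : ∀ z : ZMod 2, z = 0 ∨ z = 1 := by decide
  rcases h z with rfl | rfl
  · simp
  · have : (1 : ZMod 2) + 1 = 0 := by decide
    rw [this, add_comm]

theorem dot_zero {l : ℕ} (φ : Fin l → ZMod 2) : dot φ 0 = 0 := by simp [dot]

/-- The sum over all forms of a function of the value at the vector `y`. -/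
theorem sum_dot (l : ℕ) (y : Fin l → ZMod 2) (g : ZMod 2 → ℝ) :
    ∑ φ : Fin l → ZMod 2, g (dot φ y) = 2 ^ l * (if y = 0 then g 0 else (g 0 + g 1) / 2) := by
  have hcard : (Fintype.card (Fin l → ZMod 2) : ℝ) = 2 ^ l := by
    rw [Fintype.card_fun, ZMod.card, Fintype.card_fin]; push_cast; rfl
  by_cases hy : y = 0
  · subst hy
    simp only [dot_zero, sum_const, card_univ, nsmul_eq_mul, hcard, if_true]
  · obtain ⟨a, ha⟩ : ∃ a, y a ≠ 0 := by
      by_contra hcon
      push Not at hcon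
      exact hy (funext hcon)
    have ha1 : y a = 1 := by
      have h : ∀ z : ZMod 2, z ≠ 0 → z = 1 := by decide
      exact h _ ha
    have hdot : ∀ φ : Fin l → ZMod 2, dot (φ + Pi.single a 1) y = dot φ y + 1 := by
      intro φ
      unfold dot
      simp only [Pi.add_apply, add_mul, sum_add_distrib]
      congr 1
      rw [sum_eq_single a]
      · simp [ha1]
      · intro b _ hb
        rw [Pi.single_eq_of_ne hb, zero_mul]
      · simp
    have h1 : ∑ φ : Fin l → ZMod 2, g (dot φ y) = ∑ φ : Fin l → ZMod 2, g (dot φ y + 1) := by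
      have h0 := Equiv.sum_comp (Equiv.addRight (Pi.single a (1 : ZMod 2)))
        (fun φ : Fin l → ZMod 2 => g (dot φ y))
      rw [← h0]
      refine sum_congr rfl fun φ _ => ?_
      rw [Equiv.coe_addRight, hdot]
    have h2 : ∑ φ : Fin l → ZMod 2, (g (dot φ y) + g (dot φ y + 1)) = 2 ^ l * (g 0 + g 1) := by
      simp only [zmod2_add_one, sum_const, card_univ, nsmul_eq_mul, hcard]
    rw [sum_add_distrib, ← h1] at h2
    rw [if_neg hy]
    linarith

theorem F00 (k : ℕ) : (F k 0 0 : ℝ) = k ^ 4 + k ^ 2 := by simp [F]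

theorem F10 (k : ℕ) : (F k 1 0 : ℝ) = 2 * k ^ 3 := by simp [F]

theorem F01 (k : ℕ) : (F k 0 1 : ℝ) = 2 * k ^ 2 := by simp [F]

theorem F11 (k : ℕ) : (F k 1 1 : ℝ) = 2 * k := by simp [F]

theorem F10' (k : ℕ) : (F k 1 0 : ℝ) = F k 0 0 * fa k := by
  have : ((k : ℝ) ^ 2 + 1) ≠ 0 := by positivity
  rw [F10, F00, fa]; field_simp

theorem F01' (k : ℕ) : (F k 0 1 : ℝ) = F k 0 0 * fb k := by
  have : ((k : ℝ) ^ 2 + 1) ≠ 0 := by positivity
  rw [F01, F00, fb]; field_simp

theorem F11' (k : ℕ) (hk : 1 ≤ k) : (F k 1 1 : ℝ) = F k 0 0 * fc k := by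
  have : ((k : ℝ) ^ 2 + 1) ≠ 0 := by positivity
  have hk0 : (k : ℝ) ≠ 0 := by positivity
  rw [F11, F00, fc]; field_simp

theorem fa_nonneg (k : ℕ) : 0 ≤ fa k := by unfold fa; positivity

theorem fb_nonneg (k : ℕ) : 0 ≤ fb k := by unfold fb; positivity

theorem mu_pos (k : ℕ) : 0 < mu k := by
  have h1 := fa_nonneg k
  have h2 := fb_nonneg k
  unfold mu; positivity

open scoped Classical in
/-- The average weight of a pair of blocks divided by the square of `F k 0 0`. -/
noncomputable def wt (k : ℕ) (e : Bool) {l : ℕ} (y z : Fin l → ZMod 2) : ℝ :=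
  (if y ≠ 0 then (1 + fa k) / 2 else 1) * (if z ≠ 0 then (1 + fb k) / 2 else 1) *
    (if e = true ∧ y ≠ 0 ∧ z ≠ 0 then nu k / mu k else 1)

theorem sum_pair (k l : ℕ) (hk : 1 ≤ k) (e : Bool) (y z : Fin l → ZMod 2) :
    ∑ ω : (Fin l → ZMod 2) × (Fin l → ZMod 2), (pw k e (dot ω.1 y) (dot ω.2 z) : ℝ) =
      2 ^ l * 2 ^ l * (F k 0 0 : ℝ) ^ 2 * wt k e y z := by
  rw [Fintype.sum_prod_type]
  have h1 : ∀ φ : Fin l → ZMod 2, ∑ ψ : Fin l → ZMod 2, (pw k e (dot φ y) (dot ψ z) : ℝ) =
      (fun p : ZMod 2 => 2 ^ l * (if z = 0 then (pw k e p 0 : ℝ) else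
        ((pw k e p 0 : ℝ) + pw k e p 1) / 2)) (dot φ y) := by
    intro φ
    exact sum_dot l z (fun q => (pw k e (dot φ y) q : ℝ))
  simp only [h1]
  rw [sum_dot l y (fun p : ZMod 2 => 2 ^ l * (if z = 0 then (pw k e p 0 : ℝ) else
        ((pw k e p 0 : ℝ) + pw k e p 1) / 2))]
  have hmu := (mu_pos k).ne'
  have hfa := fa_nonneg k
  have hfb := fb_nonneg k
  have key : (1 + fa k) / 2 * ((1 + fb k) / 2) * (nu k / mu k) = nu k := by
    have h2 : (1 + fa k) / 2 * ((1 + fb k) / 2) = mu k := by unfold mu; ring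
    rw [h2]
    field_simp
  by_cases hy : y = 0 <;> by_cases hz : z = 0 <;> cases e <;>
    simp only [hy, hz, wt, pw, if_true, if_false, ne_eq, not_true_eq_false, not_false_eq_true,
      Bool.false_eq_true, and_true, and_false, and_self, Nat.cast_mul, F10' k, F01' k,
      F11' k hk] <;> try ring1
  rw [key]
  unfold nu
  ring

theorem sum_om (k n l t : ℕ) (hk : 1 ≤ k) (E : Fin n → Fin n → Bool)
    (x : Fin n → Fin l → ZMod 2) :
    ∑ ω : Om n l t, ∏ q : Ix n t,
        (pw k (E q.1 q.2.1) (dot (ω q).1 (x q.1)) (dot (ω q).2 (x q.2.1)) : ℝ) =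
      ∏ q : Ix n t, (2 ^ l * 2 ^ l * (F k 0 0 : ℝ) ^ 2 * wt k (E q.1 q.2.1) (x q.1) (x q.2.1)) := by
  have h := Finset.prod_univ_sum
    (fun _ : Ix n t => (Finset.univ : Finset ((Fin l → ZMod 2) × (Fin l → ZMod 2))))
    (fun q ω => (pw k (E q.1 q.2.1) (dot ω.1 (x q.1)) (dot ω.2 (x q.2.1)) : ℝ))
  rw [Fintype.piFinset_univ] at h
  rw [← h]
  exact prod_congr rfl fun q _ => sum_pair k l hk _ _ _

open scoped Classical in
/-- The support. -/
noncomputable def supp {n l : ℕ} (x : Fin n → Fin l → ZMod 2) : Finset (Fin n) :=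
  univ.filter fun v => x v ≠ 0

open scoped Classical in
theorem prod_wt (k n l t : ℕ) (E : Fin n → Fin n → Bool) (x : Fin n → Fin l → ZMod 2) :
    ∏ q : Ix n t, wt k (E q.1 q.2.1) (x q.1) (x q.2.1) =
      mu k ^ (t * (n * (supp x).card -
          (((supp x) ×ˢ (supp x)).filter fun q => E q.1 q.2 = true).card)) *
        nu k ^ (t * (((supp x) ×ˢ (supp x)).filter fun q => E q.1 q.2 = true).card) := by
  set I := supp x with hI
  set e := ((I ×ˢ I).filter fun q => E q.1 q.2 = true).card with he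
  have hmu := mu_pos k
  have hle : e ≤ n * I.card := by
    calc e ≤ (I ×ˢ I).card := card_filter_le _ _
      _ = I.card * I.card := card_product _ _
      _ ≤ n * I.card := by
        refine Nat.mul_le_mul_right _ ?_
        calc I.card ≤ (univ : Finset (Fin n)).card := card_le_univ _
          _ = n := by simp
  have h1 : ∀ c : ℝ, ∏ u : Fin n, (if x u ≠ 0 then c else 1) = c ^ I.card := by
    intro c
    rw [Finset.prod_ite, prod_const, prod_const_one, mul_one]
    rfl
  have h2 : ∏ u : Fin n, ∏ v : Fin n,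
      (if E u v = true ∧ x u ≠ 0 ∧ x v ≠ 0 then nu k / mu k else 1) = (nu k / mu k) ^ e := by
    rw [← Fintype.prod_prod_type' (fun u v =>
      (if E u v = true ∧ x u ≠ 0 ∧ x v ≠ 0 then nu k / mu k else 1))]
    rw [Finset.prod_ite, prod_const, prod_const_one, mul_one, he]
    congr 2
    ext q
    simp only [mem_filter, mem_univ, true_and, mem_product, hI, supp]
    tauto
  have h3 : ∏ q : Ix n t, wt k (E q.1 q.2.1) (x q.1) (x q.2.1) =
      (∏ u : Fin n, ∏ v : Fin n, wt k (E u v) (x u) (x v)) ^ t := by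
    rw [Fintype.prod_prod_type, ← Finset.prod_pow]
    refine prod_congr rfl fun u _ => ?_
    rw [Fintype.prod_prod_type, ← Finset.prod_pow]
    refine prod_congr rfl fun v _ => ?_
    simp only [prod_const, card_univ, Fintype.card_fin]
  have h4 : ∏ u : Fin n, ∏ v : Fin n, wt k (E u v) (x u) (x v) =
      mu k ^ (n * I.card - e) * nu k ^ e := by
    unfold wt
    simp only [prod_mul_distrib, prod_const, card_univ, Fintype.card_fin]
    rw [Finset.prod_pow, h1, h1, h2]
    have h5 : ((((1 + fa k) / 2) ^ I.card) ^ n * (((1 + fb k) / 2) ^ I.card) ^ n) =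
        mu k ^ (n * I.card) := by
      rw [← mul_pow, ← mul_pow, ← pow_mul, mul_comm I.card n]
      congr 1
      unfold mu
      ring
    rw [h5, div_pow]
    have h6 : mu k ^ (n * I.card) = mu k ^ (n * I.card - e) * mu k ^ e := by
      rw [← pow_add, Nat.sub_add_cancel hle]
    rw [h6]
    field_simp
  rw [h3, h4, mul_pow, ← pow_mul, ← pow_mul, mul_comm _ t, mul_comm e t]

theorem sum_form (k l : ℕ) :
    ∑ y : Fin l → ZMod 2, ∏ a, (F k (y a) 0 : ℝ) = (F k 0 0 : ℝ) ^ l * (1 + fa k) ^ l := by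
  have h := Finset.prod_univ_sum (fun _ : Fin l => (Finset.univ : Finset (ZMod 2)))
    (fun _ z => (F k z 0 : ℝ))
  rw [Fintype.piFinset_univ] at h
  rw [← h]
  have h2 : ∑ z : ZMod 2, (F k z 0 : ℝ) = F k 0 0 * (1 + fa k) := by
    have : ∑ z : ZMod 2, (F k z 0 : ℝ) = F k 0 0 + F k 1 0 := Fin.sum_univ_two _
    rw [this, F10']; ring
  rw [h2, prod_const, card_univ, Fintype.card_fin, mul_pow]

open scoped Classical in
theorem sum_supp (k n l : ℕ) (I : Finset (Fin n)) :
    ∑ x ∈ (univ : Finset (Fin n → Fin l → ZMod 2)).filter (fun x => supp x = I),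
      ∏ v, ∏ a, (F k (x v a) 0 : ℝ) =
        (F k 0 0 : ℝ) ^ (n * l) * ((1 + fa k) ^ l - 1) ^ I.card := by
  set T : Fin n → Finset (Fin l → ZMod 2) := fun v =>
    if v ∈ I then univ.filter (fun y => y ≠ 0) else {0} with hT
  have h1 : (univ : Finset (Fin n → Fin l → ZMod 2)).filter (fun x => supp x = I) =
      Fintype.piFinset T := by
    ext x
    simp only [mem_filter, mem_univ, true_and, Fintype.mem_piFinset, hT]
    constructor
    · rintro rfl v
      by_cases hv : x v = 0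
      · simp [supp, hv]
      · simp [supp, hv]
    · intro h
      ext v
      have := h v
      by_cases hv : v ∈ I
      · simp only [hv, if_true, mem_filter, mem_univ, true_and] at this
        simp [supp, this, hv]
      · simp only [hv, if_false, mem_singleton] at this
        simp [supp, this, hv]
  rw [h1, ← Finset.prod_univ_sum T (fun _ y => ∏ a, (F k (y a) 0 : ℝ))]
  have h2 : ∀ v, ∑ y ∈ T v, ∏ a, (F k (y a) 0 : ℝ) =
      (F k 0 0 : ℝ) ^ l * (if v ∈ I then ((1 + fa k) ^ l - 1) else 1) := by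
    intro v
    by_cases hv : v ∈ I
    · simp only [hT, hv, if_true]
      have h3 := Finset.sum_filter_add_sum_filter_not (univ : Finset (Fin l → ZMod 2))
        (fun y => y ≠ 0) (fun y => ∏ a, (F k (y a) 0 : ℝ))
      rw [sum_form] at h3
      have h4 : (univ : Finset (Fin l → ZMod 2)).filter (fun y => ¬ y ≠ 0) = {0} := by
        ext y; simp
      rw [h4, sum_singleton] at h3
      simp only [Pi.zero_apply, prod_const, card_univ, Fintype.card_fin] at h3
      linarith
    · simp [hT, hv]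
  simp only [h2, prod_mul_distrib, prod_const, card_univ, Fintype.card_fin]
  rw [Finset.prod_ite, prod_const, prod_const_one, mul_one, ← pow_mul, mul_comm l n]
  congr 3
  ext v
  simp

/-- Module EXP. -/
theorem exp : EXP := by
  classical
  intro k n l t hk E
  have hcard : (Fintype.card (Om n l t) : ℝ) = (2 ^ l * 2 ^ l) ^ (n * (n * t)) := by
    rw [Fintype.card_fun]
    simp only [Fintype.card_prod, Fintype.card_fun, ZMod.card, Fintype.card_fin]
    push_cast
    rfl
  have h1 : ∑ ω : Om n l t, (ZZ k n l t E ω : ℝ) =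
      ∑ x : Fin n → Fin l → ZMod 2, (∏ v, ∏ a, (F k (x v a) 0 : ℝ)) *
        ((2 ^ l * 2 ^ l * (F k 0 0 : ℝ) ^ 2) ^ (n * (n * t)) *
          (mu k ^ (t * (n * (supp x).card -
              (((supp x) ×ˢ (supp x)).filter fun q => E q.1 q.2 = true).card)) *
            nu k ^ (t * (((supp x) ×ˢ (supp x)).filter fun q => E q.1 q.2 = true).card))) := by
    unfold ZZ
    push_cast
    rw [sum_comm]
    refine sum_congr rfl fun x _ => ?_
    rw [← mul_sum, sum_om k n l t hk E x, prod_mul_distrib, prod_const, prod_wt, card_univ]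
    congr 3
    simp only [Fintype.card_prod, Fintype.card_fin]
  rw [h1, ← Finset.sum_fiberwise univ supp]
  rw [mul_sum]
  refine sum_congr rfl fun I _ => ?_
  have h2 : ∀ x ∈ (univ : Finset (Fin n → Fin l → ZMod 2)).filter (fun x => supp x = I),
      (∏ v, ∏ a, (F k (x v a) 0 : ℝ)) *
        ((2 ^ l * 2 ^ l * (F k 0 0 : ℝ) ^ 2) ^ (n * (n * t)) *
          (mu k ^ (t * (n * (supp x).card -
              (((supp x) ×ˢ (supp x)).filter fun q => E q.1 q.2 = true).card)) *
            nu k ^ (t * (((supp x) ×ˢ (supp x)).filter fun q => E q.1 q.2 = true).card))) =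
      (∏ v, ∏ a, (F k (x v a) 0 : ℝ)) *
        ((2 ^ l * 2 ^ l * (F k 0 0 : ℝ) ^ 2) ^ (n * (n * t)) *
          (mu k ^ (t * (n * I.card - ((I ×ˢ I).filter fun q => E q.1 q.2 = true).card)) *
            nu k ^ (t * ((I ×ˢ I).filter fun q => E q.1 q.2 = true).card))) := by
    intro x hx
    rw [(mem_filter.1 hx).2]
  rw [sum_congr rfl h2, ← sum_mul, sum_supp, hcard, nblocks, mul_pow (2 ^ l * 2 ^ l : ℝ)]
  have h3 : (F k 0 0 : ℝ) ^ (n * l + 2 * (n * n * t)) =
      (F k 0 0 : ℝ) ^ (n * l) * ((F k 0 0 : ℝ) ^ 2) ^ (n * (n * t)) := by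
    rw [← pow_mul, ← pow_add, mul_assoc n n t]
  rw [h3]
  ring

end Pool.Agent.Polya.H78
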